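import Pool.Agent.Results.MP_b57267_co.RationalParameter
import Pool.Agent.Helper816.Jan.K4c
import Pool.Agent.Helper816.Jan.Chk

/-!
# Exceptional graphs have at least 243 vertices

Let `F` be a graph on `v ≥ 3` vertices and `0 < p < 1` such that the centred sums `S^{(p)}(H, F)` vanish for all
graphs `H` without isolated vertices on three or four vertices. Then `v ≥ 243`.
-/

set_option autoImplicit false
open Finset
open Classical

namespace Pool.Agent.Results.MP_b57267_co.AtLeast243Vertices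

/-- The sum over all injections `φ` of the vertices of `H` into those of `F` of the product of `x_e - p` over the
images `e` of the edges of `H`. It is `S^{(p)}(H, F)` times the number of automorphisms of `H`. -/
noncomputable def centredSum {v : ℕ} (F : SimpleGraph (Fin v)) (p : ℝ) {k : ℕ} (H : SimpleGraph (Fin k)) : ℝ :=
  ∑ φ : Fin k ↪ Fin v, ∏ i : Fin k, ∏ j : Fin k,
    (if i < j ∧ H.Adj i j then ((if F.Adj (φ i) (φ j) then (1 : ℝ) else 0) - p) else 1)

theorem result (v : ℕ) (F : SimpleGraph (Fin v)) (p : ℝ) (hv : 3 ≤ v) (hp0 : 0 < p) (hp1 : p < 1)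
    (hS : ∀ (k : ℕ) (H : SimpleGraph (Fin k)), (k = 3 ∨ k = 4) →
      (∀ w : Fin k, ∃ u : Fin k, H.Adj w u) → centredSum F p H = 0) :
    243 ≤ v := by
  classical
  by_contra hlt
  push Not at hlt
  obtain ⟨x, hx, hdvd, hxv, -⟩ := Pool.Agent.Results.MP_b57267_co.RationalParameter.result v F p hv hp0 hp1 hS
  have hP : Pool.Agent.Helper816.Jan.cs F p Pool.Agent.Helper816.Jan.P3 = 0 := by
    refine hS 3 _ (Or.inl rfl) ?_
    intro w
    fin_cases w
    · exact ⟨1, Or.inr ⟨rfl, by decide⟩⟩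
    · exact ⟨0, Or.inl ⟨rfl, by decide⟩⟩
    · exact ⟨1, Or.inr ⟨rfl, by decide⟩⟩
  have hK : Pool.Agent.Helper816.Jan.cs F p (⊤ : SimpleGraph (Fin 3)) = 0 := by
    refine hS 3 _ (Or.inl rfl) ?_
    intro w
    fin_cases w
    · exact ⟨1, by simp⟩
    · exact ⟨0, by simp⟩
    · exact ⟨0, by simp⟩
  have hM : Pool.Agent.Helper816.Jan.cs F p Pool.Agent.Helper816.Jan.M4 = 0 := by
    refine hS 4 _ (Or.inr rfl) ?_
    intro w
    fin_cases w
    · exact ⟨1, by decide, by decide⟩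
    · exact ⟨0, by decide, by decide⟩
    · exact ⟨3, by decide, by decide⟩
    · exact ⟨2, by decide, by decide⟩
  obtain ⟨e, c, R1, R2, R3⟩ := Pool.Agent.Helper816.Jan.main_real F p hP hK hM
  obtain ⟨X, hX⟩ := Pool.Agent.Helper816.Jan.X4_formula F p hv
    (fun H hH => hS 3 H (Or.inl rfl) hH) (fun H hH => hS 4 H (Or.inr rfl) hH)
  rw [Pool.Agent.Helper816.Jan.cs_edge] at hX
  obtain ⟨m, hm⟩ : ∃ m : ℕ, m = F.edgeFinset.card := ⟨_, rfl⟩
  rw [← hm] at R1 R2 R3 hX
  subst hx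
  have R1' : (2 * (m : ℚ) - x * (v * (v - 1))) ^ 2 =
        2 * ((1 - 2 * x) * (2 * m) + x ^ 2 * (v * (v - 1))) := by exact_mod_cast R1
  have R2' : 2 * (e : ℚ) = (v - 2) * (2 * x * (2 * m) - x ^ 2 * (v * (v - 1))) := by exact_mod_cast R2
  have R3' : 2 * (c : ℚ) = 3 * x * (2 * (e : ℚ)) - 3 * x ^ 2 * ((v - 2) * (2 * m))
        + x ^ 3 * (v * (v - 1) * (v - 2)) := by exact_mod_cast R3
  have hX' : (X : ℚ) = x ^ 6 * (v * (v - 1) * (v - 2) * (v - 3))
      + 6 * x ^ 5 * ((v - 2) * (v - 3) * (2 * m - x * (v * (v - 1)))) := by exact_mod_cast hX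
  have hxs : x * (x.den : ℚ) = x.num := Rat.mul_den_eq_num x
  have hx0 : 0 < x := by exact_mod_cast hp0
  have hx1 : x < 1 := by exact_mod_cast hp1
  have hn0 : 0 < x.num := Rat.num_pos.mpr hx0
  obtain ⟨r, hr⟩ : ∃ r : ℕ, (r : ℤ) = x.num := ⟨x.num.toNat, Int.toNat_of_nonneg hn0.le⟩
  obtain ⟨s, hs⟩ : ∃ s : ℕ, s = x.den := ⟨_, rfl⟩
  have hsp : 0 < s := by rw [hs]; exact x.den_pos
  have hrq : (r : ℚ) = x * s := by
    rw [hs, hxs, ← hr]; norm_cast
  have hr0 : 0 < r := by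
    have : (0 : ℤ) < r := by rw [hr]; exact hn0
    exact_mod_cast this
  have hrs : r < s := by
    have h1 : (r : ℚ) < s := by
      rw [hrq]
      have : (0 : ℚ) < s := by exact_mod_cast hsp
      nlinarith
    exact_mod_cast h1
  have hg : Nat.gcd r s = 1 := by
    have := x.reduced
    rw [← hr, ← hs] at this
    simpa using this
  have hchk := Pool.Agent.Helper816.Jan.fin_check v hlt hv s (by rw [hs]; exact hxv) (by rw [hs]; exact hdvd)
    r hrs hr0 hg
  refine Pool.Agent.Helper816.Jan.chk_sound v s r hv hrs m e c X ?_ ?_ ?_ ?_ hchk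
  · have : (2 * (s : ℚ) * m - r * v * (v - 1) - s + 2 * r) ^ 2 =
      (s : ℚ) ^ 2 + 2 * r * (s - r) * (v - 2) * (v + 1) := by
      rw [hrq]
      linear_combination (s : ℚ) ^ 2 * R1'
    exact_mod_cast this
  · have : 2 * (s : ℚ) ^ 2 * e = (v - 2) * r * (2 * (2 * s * m) - r * v * (v - 1)) := by
      rw [hrq]
      linear_combination (s : ℚ) ^ 2 * R2'
    exact_mod_cast this
  · have : 2 * (s : ℚ) ^ 3 * c = (v - 2) * r ^ 2 * (3 * (2 * s * m) - 2 * r * v * (v - 1)) := by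
      rw [hrq]
      linear_combination (s : ℚ) ^ 3 * R3' + 3 * x * (s : ℚ) ^ 3 * R2'
    exact_mod_cast this
  · have : (s : ℚ) ^ 6 * X = (v - 2) * (v - 3) * r ^ 5 * (6 * (2 * s * m) - 5 * r * v * (v - 1)) := by
      rw [hrq]
      linear_combination (s : ℚ) ^ 6 * hX'
    exact_mod_cast this

end Pool.Agent.Results.MP_b57267_co.AtLeast243Vertices
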