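import Pool.Agent.Helper816.Jan.Main

/-!
# Exceptional pairs have rational `p`, with `den(p) ^ 3 ∣ v (v - 1) (v - 2)`

Let `F` be a graph on `v ≥ 3` vertices and `0 < p < 1` such that the centred sums `S^{(p)}(H, F)` vanish for all
graphs `H` without isolated vertices on three or four vertices (the five-vertex conditions are not used). Then `p` is
rational, the cube of its denominator divides `v (v - 1) (v - 2)` (so the denominator is less than `v`), and the number
of edges satisfies a quadratic equation over `ℚ(p)`, a divisibility and a square condition.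
-/

set_option autoImplicit false
open Finset
open Classical

namespace Pool.Agent.Results.MP_b57267_co.RationalParameter

/-- The sum over all injections `φ` of the vertices of `H` into those of `F` of the product of `x_e - p` over the
images `e` of the edges of `H`. It is `S^{(p)}(H, F)` times the number of automorphisms of `H`. -/
noncomputable def centredSum {v : ℕ} (F : SimpleGraph (Fin v)) (p : ℝ) {k : ℕ} (H : SimpleGraph (Fin k)) : ℝ :=
  ∑ φ : Fin k ↪ Fin v, ∏ i : Fin k, ∏ j : Fin k,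
    (if i < j ∧ H.Adj i j then ((if F.Adj (φ i) (φ j) then (1 : ℝ) else 0) - p) else 1)

theorem result (v : ℕ) (F : SimpleGraph (Fin v)) (p : ℝ) (hv : 3 ≤ v) (hp0 : 0 < p) (hp1 : p < 1)
    (hS : ∀ (k : ℕ) (H : SimpleGraph (Fin k)), (k = 3 ∨ k = 4) →
      (∀ w : Fin k, ∃ u : Fin k, H.Adj w u) → centredSum F p H = 0) :
    ∃ x : ℚ, (x : ℝ) = p ∧ x.den ^ 3 ∣ v * (v - 1) * (v - 2) ∧ x.den < v ∧
      ∃ m N : ℕ, m = F.edgeSet.ncard ∧ N = v.choose 2 ∧ 0 < m ∧ m < N ∧
        (N : ℚ) * (N - 1) * x ^ 2 - 2 * m * (N - 1) * x + m * (m - 1) = 0 ∧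
        (v + 1) ∣ 2 * m * (m - 1) ∧ IsSquare (m * (N - m) * (N - 1)) := by
  classical
  have hP : Pool.Agent.Helper816.Jan.cs F p Pool.Agent.Helper816.Jan.P3 = 0 := by
    refine hS 3 _ (Or.inl rfl) ?_
    intro w
    fin_cases w
    · exact ⟨1, Or.inr ⟨rfl, by decide⟩⟩
    · exact ⟨0, Or.inl ⟨rfl, by decide⟩⟩
    · exact ⟨1, Or.inr ⟨rfl, by decide⟩⟩
  have hK : Pool.Agent.Helper816.Jan.cs F p (⊤ : SimpleGraph (Fin 3)) = 0 := by
    refine hS 3 _ (Or.inl rfl) ?_
    intro w
    fin_cases w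
    · exact ⟨1, by simp⟩
    · exact ⟨0, by simp⟩
    · exact ⟨0, by simp⟩
  have hM : Pool.Agent.Helper816.Jan.cs F p Pool.Agent.Helper816.Jan.M4 = 0 := by
    refine hS 4 _ (Or.inr rfl) ?_
    intro w
    fin_cases w
    · exact ⟨1, by decide, by decide⟩
    · exact ⟨0, by decide, by decide⟩
    · exact ⟨3, by decide, by decide⟩
    · exact ⟨2, by decide, by decide⟩
  obtain ⟨e, c, R1, R2, R3⟩ := Pool.Agent.Helper816.Jan.main_real F p hP hK hM
  obtain ⟨m, hm⟩ : ∃ m : ℕ, m = F.edgeFinset.card := ⟨_, rfl⟩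
  rw [← hm] at R1 R2 R3
  obtain ⟨N, hN⟩ : ∃ N : ℕ, N = v.choose 2 := ⟨_, rfl⟩
  have hN2 : 2 * N = v * (v - 1) := by
    rw [hN, Nat.choose_two_right]
    exact Nat.mul_div_cancel' (Nat.even_mul_pred_self v).two_dvd
  have hN2r : 2 * (N : ℝ) = v * (v - 1) := by
    have h1 : (1 : ℕ) ≤ v := by omega
    have := congrArg (fun n : ℕ => (n : ℝ)) hN2
    push_cast [Nat.cast_sub h1] at this
    linarith
  have hvr : (3 : ℝ) ≤ v := by exact_mod_cast hv
  have hN3 : 3 ≤ N := by
    have : 3 * 2 ≤ v * (v - 1) := Nat.mul_le_mul hv (by omega)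
    omega
  have hNr : (3 : ℝ) ≤ N := by exact_mod_cast hN3
  rw [← hN2r] at R1 R2
  have Q : (N : ℝ) * (N - 1) * p ^ 2 - 2 * m * (N - 1) * p + m * (m - 1) = 0 := by
    linear_combination R1 / 4
  have hmN : m ≤ N := by
    have := F.card_edgeFinset_le_card_choose_two
    rw [Fintype.card_fin] at this
    rw [hm, hN]
    exact le_trans (le_of_eq (congrArg Finset.card (by ext; simp))) this
  have hm0 : 0 < m := by
    rcases Nat.eq_zero_or_pos m with h | h
    · exfalso
      rw [h] at Q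
      have h1 : (N : ℝ) * (N - 1) * p ^ 2 = 0 := by push_cast at Q; linarith
      have h2 : 0 < (N : ℝ) * (N - 1) * p ^ 2 := by
        have : (0 : ℝ) < N - 1 := by linarith
        have h3 : (0 : ℝ) < N := by linarith
        positivity
      linarith
    · exact h
  have hmN' : m < N := by
    rcases Nat.lt_or_ge m N with h | h
    · exact h
    · exfalso
      have h' : m = N := le_antisymm hmN h
      rw [h'] at Q
      have h1 : (N : ℝ) * (N - 1) * (1 - p) ^ 2 = 0 := by linear_combination Q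
      have h2 : 0 < (N : ℝ) * (N - 1) * (1 - p) ^ 2 := by
        have : (0 : ℝ) < N - 1 := by linarith
        have h3 : (0 : ℝ) < N := by linarith
        have h4 : (0 : ℝ) < 1 - p := by linarith
        positivity
      linarith
  have hmr : (0 : ℝ) < m := by exact_mod_cast hm0
  have hmNr : (m : ℝ) < N := by exact_mod_cast hmN'
  have C3 : 2 * (c : ℝ) = (v - 2) * (6 * m * p ^ 2 - 4 * N * p ^ 3) := by
    linear_combination R3 + 3 * p * R2 + p ^ 3 * (v - 2) * (-hN2r)
  have C2 : (e : ℝ) = (v - 2) * (2 * p * m - N * p ^ 2) := by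
    linear_combination R2 / 2
  -- rationality
  have hform : 4 * (m : ℝ) * (N - m) * (v - 2) * p =
      2 * m ^ 2 * (m - 1) * (v - 2) - N * (N - 1) * (2 * c) := by
    rw [C3]
    linear_combination ((v - 2) * (-2 * m - 4 * N * p)) * Q
  have hden : (4 * (m : ℝ) * (N - m) * (v - 2)) ≠ 0 := by
    have h1 : (0 : ℝ) < N - m := by linarith
    have h2 : (0 : ℝ) < (v : ℝ) - 2 := by linarith
    positivity
  obtain ⟨x, hx⟩ : ∃ x : ℚ, (x : ℝ) = p := by
    refine ⟨(2 * m ^ 2 * (m - 1) * (v - 2) - N * (N - 1) * (2 * c)) / (4 * (m : ℚ) * (N - m) * (v - 2)), ?_⟩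
    push_cast
    rw [div_eq_iff hden]
    linarith
  subst hx
  have Q' : (N : ℚ) * (N - 1) * x ^ 2 - 2 * m * (N - 1) * x + m * (m - 1) = 0 := by exact_mod_cast Q
  have C3' : 2 * (c : ℚ) = (v - 2) * (6 * m * x ^ 2 - 4 * N * x ^ 3) := by exact_mod_cast C3
  have C2' : (e : ℚ) = (v - 2) * (2 * x * m - N * x ^ 2) := by exact_mod_cast C2
  have hN2q : 2 * (N : ℚ) = v * (v - 1) := by exact_mod_cast hN2r
  have hN2z : 2 * (N : ℤ) = (v : ℤ) * (v - 1) := by exact_mod_cast hN2q
  have hxs : x * (x.den : ℚ) = x.num := Rat.mul_den_eq_num x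
  have hcop : IsCoprime x.num (x.den : ℤ) := by
    rw [Int.isCoprime_iff_gcd_eq_one]
    have := x.reduced
    rw [Int.gcd_eq_natAbs]
    simpa using this
  have hdvd := Pool.Agent.Helper816.Jan.den_cube (v : ℤ) (N : ℤ) x.num (m * x.den - x.num * N) m c e x.den
    x.den_pos hN2z hcop
    (by
      have : ((x.den : ℚ)) ^ 3 * c = (v - 2) * x.num ^ 2 * (x.num * N + 3 * (m * x.den - x.num * N)) := by
        rw [← hxs]
        linear_combination (x.den : ℚ) ^ 3 / 2 * C3'
      exact_mod_cast this)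
    (by
      have : ((x.den : ℚ)) ^ 2 * e = (v - 2) * x.num * (x.num * N + 2 * (m * x.den - x.num * N)) := by
        rw [← hxs]
        linear_combination (x.den : ℚ) ^ 2 * C2'
      exact_mod_cast this)
    rfl
    (by
      have : (m * (x.den : ℚ) - x.num * N) ^ 2 = (x.den - 2 * x.num) * (m * x.den - x.num * N)
          + x.num * (x.den - x.num) * N := by
        rw [← hxs]
        linear_combination (x.den : ℚ) ^ 2 * Q'
      exact_mod_cast this)
  have hdvd' : x.den ^ 3 ∣ v * (v - 1) * (v - 2) := by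
    have h1 : ((v : ℤ) - 1) = ((v - 1 : ℕ) : ℤ) := by omega
    have h2 : ((v : ℤ) - 2) = ((v - 2 : ℕ) : ℤ) := by omega
    rw [h1, h2] at hdvd
    exact_mod_cast hdvd
  refine ⟨x, rfl, hdvd', ?_, m, N, ?_, hN, hm0, hmN', Q', ?_, ?_⟩
  · by_contra hcon
    push Not at hcon
    have hpos : 0 < v * (v - 1) * (v - 2) := by
      have h1 : 0 < v - 1 := by omega
      have h2 : 0 < v - 2 := by omega
      positivity
    have h1 := Nat.le_of_dvd hpos hdvd'
    have h2 : v ^ 3 ≤ x.den ^ 3 := Nat.pow_le_pow_left hcon 3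
    have h3 : v * (v - 1) * (v - 2) < v ^ 3 := by
      obtain ⟨w, rfl⟩ : ∃ w, v = w + 3 := ⟨v - 3, by omega⟩
      have e1 : w + 3 - 1 = w + 2 := by omega
      have e2 : w + 3 - 2 = w + 1 := by omega
      rw [e1, e2]
      nlinarith
    omega
  · rw [hm, Set.ncard_eq_toFinset_card']
    exact congrArg Finset.card (by ext; simp)
  · refine ⟨e, ?_⟩
    have h1 : (1 : ℕ) ≤ m := hm0
    have : ((2 * m * (m - 1) : ℕ) : ℚ) = (((v + 1) * e : ℕ) : ℚ) := by
      push_cast [Nat.cast_sub h1]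
      rw [C2']
      linear_combination 2 * Q' + (2 * x * m - N * x ^ 2) * hN2q
    exact_mod_cast this
  · rw [← Rat.isSquare_natCast_iff]
    refine ⟨((N : ℚ) - 1) * (m - N * x), ?_⟩
    push_cast [Nat.cast_sub hmN, Nat.cast_sub (show 1 ≤ N by omega)]
    linear_combination (-(N : ℚ) * (N - 1)) * Q'

end Pool.Agent.Results.MP_b57267_co.RationalParameter
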